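import Mathlib

namespace Pool.Agent.Results.MP_5f25aa_nt.Ten

/-- Arithmetic expressions built from copies of `2` by addition and multiplication. -/
inductive Ex : Type
  | two : Ex
  | add : Ex → Ex → Ex
  | mul : Ex → Ex → Ex

/-- The value of an expression. -/
def val : Ex → ℕ
  | .two => 2
  | .add a b => val a + val b
  | .mul a b => val a * val b

/-- The number of copies of `2` in an expression. -/
def cnt : Ex → ℕ
  | .two => 1
  | .add a b => cnt a + cnt b
  | .mul a b => cnt a + cnt b

/-- The 2-complexity: the least number of copies of `2` in an expression of value `n`. -/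
noncomputable def cx (n : ℕ) : ℕ := sInf {k | ∃ e : Ex, val e = n ∧ cnt e = k}

open Ex in
/-- An expression for `10 ^ 10` with `39` copies of `2`. -/
def w : Ex :=
    (mul two (mul two (mul two (mul two (mul two (mul two (mul two (mul two (mul two (add two
    (mul two (mul (add two (mul two two)) (mul (add two (mul two (mul two (mul two (add two
    (mul two (mul two (mul two (mul two (mul two (mul two two))))))))))) (add two (mul two
    (mul (add two (mul two two)) (add two (mul two (mul two (mul two (mul two (mul two (mul
    two two)))))))))))))))))))))))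

theorem result :
    ¬ ∀ m u r : ℕ, 2 ≤ u → 1 ≤ r → cx (2 ^ m * (2 ^ u + 2) ^ r) = m + (u + 1) * r := by
  intro h
  have h1 := h 0 3 10 (by norm_num) (by norm_num)
  have h2 : cx (2 ^ 0 * (2 ^ 3 + 2) ^ 10) ≤ 39 :=
    Nat.sInf_le ⟨w, by decide +kernel, by decide +kernel⟩
  omega

end Pool.Agent.Results.MP_5f25aa_nt.Ten
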